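import Pool.Agent.Helper25.FN.All

set_option autoImplicit false

/-!
# MP_6e521b_an: `Φ_P` is bijective for all polynomials in any number of variables whose leading form
defines a smooth projective hypersurface

Notation (definitions in `Pool.Agent.Helper25.FB.Inj`): `Entire` are the entire functions,
`IsAF T` says that `T` is an analytic functional, `FBorel T` is the Fourier-Borel transform,
`ExpType` are the entire functions of exponential type, `InPerp P T` says that the analytic
functional `T` annihilates `P · H(ℂ^n)`, and `InPStarExp P f` says that `f` belongs to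
`P* · Exp(ℂ^n)`.

Proof of the surjectivity. One has to solve `P(∂)(P* Q) = G` in `Exp`. Let `p` be the leading form of
`P*`. There is a smooth function `Φ`, homogeneous of degree one outside a ball and arbitrarily large,
such that `P(2∂Φ)` vanishes exactly on the cone `p = 0` at infinity and
`Re (p · P(2∂Φ)) ≥ c |p|^2` on the unit sphere (`Φ = B |z| + Re (a p)`, implicit function theorem).
The form `a(Q,R) = ∫ P* Q conj(R) P(-∂)e^(-2Φ)` on entire functions which are square integrable with
the weight `(|p|^2 (1+|z|)^(-d) + (1+|z|)^(d-2)) e^(-2Φ)` is coercive modulo a compact form, because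
holomorphic functions cannot concentrate near the cone. Injectivity and the identification of weak
solutions follow from integration by parts and the fact that
`∫ ((l + ∑ z_j ∂_j)^k R) conj(R) e^(-2Φ)` has positive real part.
-/

namespace Pool.Agent.Results.MP_6e521b_an.SmoothLeadingForm

open Pool.Agent.Helper25.FB Pool.Agent.Helper25.FB.Inj

/-- Let `n ≥ 1` and let `P` be a polynomial in `n` variables whose leading form (the homogeneous
component of degree `deg P`) is nonsingular: at every nonzero zero of it one of its partial
derivatives does not vanish.  Then the map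
`Φ_P : (P · H(ℂ^n))^⊥ → Exp(ℂ^n) / P* · Exp(ℂ^n)`, `T ↦ class of F(T)`,
is well defined, injective and surjective. -/
theorem result (n : ℕ) (hn : 1 ≤ n) (P : MvPolynomial (Fin n) ℂ)
    (hP : ∀ a : Fin n → ℂ, a ≠ 0 →
      MvPolynomial.eval a (MvPolynomial.homogeneousComponent P.totalDegree P) = 0 →
      ∃ i, MvPolynomial.eval a
        (MvPolynomial.pderiv i (MvPolynomial.homogeneousComponent P.totalDegree P)) ≠ 0) :
    (∀ T : ((Fin n → ℂ) → ℂ) → ℂ, InPerp P T → ExpType (FBorel T)) ∧
    (∀ S T : ((Fin n → ℂ) → ℂ) → ℂ, InPerp P S → InPerp P T →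
      InPStarExp P (fun z => FBorel S z - FBorel T z) →
      ∀ f : (Fin n → ℂ) → ℂ, Entire f → S f = T f) ∧
    (∀ G : (Fin n → ℂ) → ℂ, ExpType G →
      ∃ T : ((Fin n → ℂ) → ℂ) → ℂ, InPerp P T ∧ InPStarExp P (fun z => FBorel T z - G z)) :=
  ⟨fun T hT => Inj.result.1 n T hT.1, fun S T hS hT h => Inj.result.2.1 n P S T hS hT h,
    Pool.Agent.Helper25.FN.fin_thm n P hn hP⟩

end Pool.Agent.Results.MP_6e521b_an.SmoothLeadingForm
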